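import Pool.Agent.RS.StmtsT

/-!
# Squad RS, row NPW
-/

set_option autoImplicit false

namespace Pool.Agent.RS.H18

theorem npw (ntm : NtmStmt) (goo : GooStmt) : NpwStmt := by
  intro B K _ _ _ _ hinj P q r hP l hl s a f hf hf0
  have hmono : ∀ n m : ℕ, m + n ≤ r → P (m + n) ≤ P m := by
    intro n
    induction n with
    | zero => exact fun m _ => le_refl _
    | succ n ih =>
      intro m hm
      exact le_trans ((hP (m + n) (by omega)).2.2) (ih m (by omega))
  have hle : ∀ m m' : ℕ, m ≤ m' → m' ≤ r → P m' ≤ P m := by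
    intro m m' h1 h2
    obtain ⟨n, rfl⟩ := Nat.exists_eq_add_of_le h1
    exact hmono n m h2
  have hu1 : (∏ i ∈ Finset.Ico (l + 1) r, q i) ∈ P (l + 1) := by
    refine Subring.prod_mem _ ?_
    intro i hi
    rw [Finset.mem_Ico] at hi
    exact hle (l + 1) i hi.1 (le_of_lt hi.2) (hP i hi.2).1
  have hu0 : (∏ i ∈ Finset.Ico (l + 1) r, q i) ≠ 0 := by
    rw [Finset.prod_ne_zero_iff]
    intro i hi
    rw [Finset.mem_Ico] at hi
    exact (hP i hi.2).2.1
  have hgood : Good (P l) (P (l + 1)) (q l) ((∏ i ∈ Finset.Ico (l + 1) r, q i) ^ s * f) :=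
    (goo B (P l) (P (l + 1)) (q l) (hP l hl).2.2 (hP l hl).1).2 _
      (Subring.mul_mem _ (Subring.pow_mem _ hu1 s) (hle (l + 1) r hl le_rfl hf))
      (mul_ne_zero (pow_ne_zero s hu0) hf0)
  have h1 := ntm B K P q r l s a _ hl hgood
  have h2 : (∏ i ∈ Finset.range r, q i) =
      (∏ i ∈ Finset.range l, q i) * (q l * ∏ i ∈ Finset.Ico (l + 1) r, q i) := by
    rw [← Finset.prod_range_mul_prod_Ico q (le_of_lt hl), Finset.prod_eq_prod_Ico_succ_bot hl]
  have hq : algebraMap B K (q l) ≠ 0 := by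
    intro h
    exact (hP l hl).2.1 (hinj (by rw [h, map_zero]))
  have h3 : algebraMap B K (q l) ^ s * (algebraMap B K a /
      algebraMap B K ((∏ i ∈ Finset.range r, q i) ^ s * f)) =
      algebraMap B K a / algebraMap B K ((∏ i ∈ Finset.range l, q i) ^ s *
        ((∏ i ∈ Finset.Ico (l + 1) r, q i) ^ s * f)) := by
    have h4 : algebraMap B K ((∏ i ∈ Finset.range r, q i) ^ s * f) =
        algebraMap B K (q l) ^ s * algebraMap B K ((∏ i ∈ Finset.range l, q i) ^ s *
          ((∏ i ∈ Finset.Ico (l + 1) r, q i) ^ s * f)) := by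
      rw [← map_pow, ← map_mul, h2]
      congr 1
      ring
    rw [h4, mul_div_assoc', mul_div_mul_left _ _ (pow_ne_zero s hq)]
  rw [h3]
  exact h1

end Pool.Agent.RS.H18
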